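import Mathlib

set_option maxHeartbeats 1000000

namespace Pool.Agent.Results.MP_39eed7_co.AverageDegreeOne

open Finset

/-- `S` is `k`-independent in `G`: every vertex of `S` has at most `k` neighbours in `S`. -/
def KInd {n : ℕ} (G : SimpleGraph (Fin n)) [DecidableRel G.Adj] (k : ℕ) (S : Finset (Fin n)) :
    Prop := ∀ v ∈ S, (S.filter (G.Adj v)).card ≤ k

instance {n : ℕ} (G : SimpleGraph (Fin n)) [DecidableRel G.Adj] (k : ℕ) :
    DecidablePred (KInd G k) := fun S =>
  inferInstanceAs (Decidable (∀ v ∈ S, (S.filter (G.Adj v)).card ≤ k))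

/-- The `k`-independence number. -/
def alpha {n : ℕ} (G : SimpleGraph (Fin n)) [DecidableRel G.Adj] (k : ℕ) : ℕ :=
  ((univ : Finset (Finset (Fin n))).filter (KInd G k)).sup Finset.card

/-- The set of ratios `α_k(G)/n(G)` over nonempty graphs of average degree at most `d`. -/
def ratios (k : ℕ) (d : ℝ) : Set ℝ :=
  {x | ∃ (n : ℕ) (G : SimpleGraph (Fin n)) (_ : DecidableRel G.Adj), 0 < n ∧
    2 * (G.edgeFinset.card : ℝ) / n ≤ d ∧ x = (alpha G k : ℝ) / n}

/-- `f(k,d)`. -/
noncomputable def f (k : ℕ) (d : ℝ) : ℝ := sInf (ratios k d)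

/-- Number of ordered adjacent pairs inside `S`. -/
def P {n : ℕ} (G : SimpleGraph (Fin n)) [DecidableRel G.Adj] (S : Finset (Fin n)) : ℕ :=
  ∑ u ∈ S, (S.filter (G.Adj u)).card

theorem P_erase {n : ℕ} (G : SimpleGraph (Fin n)) [DecidableRel G.Adj] (S : Finset (Fin n))
    (v : Fin n) (hv : v ∈ S) :
    P G S = P G (S.erase v) + 2 * (S.filter (G.Adj v)).card := by
  have h1 : ∀ u ∈ S.erase v, (S.filter (G.Adj u)).card =
      ((S.erase v).filter (G.Adj u)).card + (if G.Adj v u then 1 else 0) := by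
    intro u hu
    rw [filter_erase]
    by_cases h : G.Adj v u
    · have hm : v ∈ S.filter (G.Adj u) := mem_filter.mpr ⟨hv, h.symm⟩
      rw [if_pos h, card_erase_of_mem hm]
      have := card_pos.mpr ⟨v, hm⟩
      omega
    · have hm : v ∉ S.filter (G.Adj u) := fun h' => h (mem_filter.mp h').2.symm
      rw [if_neg h, erase_eq_of_notMem hm, add_zero]
  have h2 : ∑ u ∈ S.erase v, (if G.Adj v u then 1 else 0) = (S.filter (G.Adj v)).card := by
    rw [← card_filter, filter_erase, erase_eq_of_notMem]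
    simp
  unfold P
  rw [← add_sum_erase _ _ hv, sum_congr rfl h1, sum_add_distrib, h2]
  ring

theorem greedy {n : ℕ} (G : SimpleGraph (Fin n)) [DecidableRel G.Adj] (k : ℕ) :
    ∀ (m : ℕ) (S : Finset (Fin n)), S.card = m → ∃ T, T ⊆ S ∧ KInd G k T ∧
      (S.card - T.card) * (2 * (k + 1)) ≤ P G S := by
  intro m
  induction m with
  | zero =>
    intro S hS
    refine ⟨S, Subset.rfl, ?_, by simp⟩
    intro v hv
    rw [card_eq_zero.mp hS] at hv
    simp at hv
  | succ m ih =>
    intro S hS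
    by_cases h : KInd G k S
    · exact ⟨S, Subset.rfl, h, by simp⟩
    · unfold KInd at h
      push Not at h
      obtain ⟨v, hv, hk⟩ := h
      obtain ⟨T, hT, hTk, hc⟩ := ih (S.erase v) (by rw [card_erase_of_mem hv, hS]; rfl)
      refine ⟨T, hT.trans (erase_subset _ _), hTk, ?_⟩
      rw [P_erase G S v hv]
      have h3 := card_erase_of_mem hv
      have h4 := card_le_card hT
      have h5 : S.card - T.card = ((S.erase v).card - T.card) + 1 := by omega
      rw [h5, add_mul]
      nlinarith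

theorem P_univ {n : ℕ} (G : SimpleGraph (Fin n)) [DecidableRel G.Adj] :
    P G univ = 2 * G.edgeFinset.card := by
  rw [← G.sum_degrees_eq_twice_card_edges]
  unfold P
  apply sum_congr rfl
  intro u _
  rw [← SimpleGraph.card_neighborFinset_eq_degree, SimpleGraph.neighborFinset_eq_filter]

theorem alpha_ge {n : ℕ} (G : SimpleGraph (Fin n)) [DecidableRel G.Adj] (k : ℕ) :
    (n - alpha G k : ℝ) * (k + 1) ≤ G.edgeFinset.card := by
  obtain ⟨T, hT, hTk, hc⟩ := greedy G k _ univ rfl
  have h1 : T.card ≤ alpha G k :=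
    Finset.le_sup (f := Finset.card) (mem_filter.mpr ⟨mem_univ T, hTk⟩)
  rw [P_univ, card_univ, Fintype.card_fin] at hc
  have h2 : T.card ≤ n := by simpa using card_le_univ T
  have h3 : (n - T.card) * (k + 1) ≤ G.edgeFinset.card := by nlinarith
  have h4 : ((n - T.card : ℕ) : ℝ) * (k + 1) ≤ G.edgeFinset.card := by exact_mod_cast h3
  rw [Nat.cast_sub h2] at h4
  have h5 : (T.card : ℝ) ≤ alpha G k := by exact_mod_cast h1
  have h6 : (0 : ℝ) < (k : ℝ) + 1 := by positivity
  nlinarith

theorem alpha_le {n : ℕ} (G : SimpleGraph (Fin n)) [DecidableRel G.Adj] (k : ℕ) :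
    alpha G k ≤ n := by
  unfold alpha
  apply Finset.sup_le
  intro S _
  simpa using card_le_univ S

/-- Greedy deletion: every ratio is at least `1 - d/(2(k+1))`. -/
theorem lower (k : ℕ) (d : ℝ) : ∀ x ∈ ratios k d, 1 - d / (2 * (k + 1)) ≤ x := by
  rintro x ⟨n, G, inst, hn, hd, rfl⟩
  have h1 := alpha_ge G k
  have hn' : (0 : ℝ) < n := by exact_mod_cast hn
  have hk : (0 : ℝ) < (k : ℝ) + 1 := by positivity
  rw [div_le_iff₀ hn'] at hd
  rw [le_div_iff₀ hn']
  have h2 : 2 * ((n - alpha G k : ℝ) * (k + 1)) ≤ d * n := by linarith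
  have h3 : (n - alpha G k : ℝ) ≤ d * n / (2 * (k + 1)) := by
    rw [le_div_iff₀ (by positivity)]
    linarith
  have h4 : d * n / (2 * (k + 1)) = d / (2 * (k + 1)) * n := by ring
  rw [h4] at h3
  linarith

theorem f_eq (k : ℕ) (d : ℝ) (h : 1 - d / (2 * (k + 1)) ∈ ratios k d) :
    f k d = 1 - d / (2 * (k + 1)) ∧ f k d ∈ ratios k d := by
  have h1 : f k d = 1 - d / (2 * (k + 1)) := by
    unfold f
    apply le_antisymm
    · exact csInf_le ⟨_, fun x hx => lower k d x hx⟩ h
    · exact le_csInf ⟨_, h⟩ (fun x hx => lower k d x hx)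
  exact ⟨h1, h1 ▸ h⟩

/-- The star with `k+1` leaves together with `k` isolated vertices. -/
def star (k : ℕ) : SimpleGraph (Fin (2 * k + 2)) where
  Adj i j := (i.val = 0 ∧ 0 < j.val ∧ j.val ≤ k + 1) ∨ (j.val = 0 ∧ 0 < i.val ∧ i.val ≤ k + 1)
  symm := ⟨fun _ _ h => h.symm⟩
  loopless := ⟨fun i h => by omega⟩

instance (k : ℕ) : DecidableRel (star k).Adj := fun i j =>
  inferInstanceAs (Decidable ((i.val = 0 ∧ 0 < j.val ∧ j.val ≤ k + 1) ∨
    (j.val = 0 ∧ 0 < i.val ∧ i.val ≤ k + 1)))

theorem star_deg (k : ℕ) :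
    ((univ : Finset (Fin (2 * k + 2))).filter ((star k).Adj ⟨0, by omega⟩)).card = k + 1 := by
  rw [← card_map Fin.valEmbedding]
  have : ((univ : Finset (Fin (2 * k + 2))).filter ((star k).Adj ⟨0, by omega⟩)).map
      Fin.valEmbedding = Icc 1 (k + 1) := by
    ext x
    simp only [mem_map, mem_filter, mem_univ, true_and, Fin.valEmbedding_apply, mem_Icc]
    constructor
    · rintro ⟨a, ha, rfl⟩
      rcases ha with ⟨_, h1, h2⟩ | ⟨_, h1, _⟩
      · exact ⟨h1, h2⟩
      · exact absurd h1 (lt_irrefl _)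
    · rintro ⟨h1, h2⟩
      exact ⟨⟨x, by omega⟩, Or.inl ⟨rfl, h1, h2⟩, rfl⟩
  rw [this, Nat.card_Icc]
  omega

theorem star_edges (k : ℕ) : (star k).edgeFinset.card = k + 1 := by
  have h1 := P_univ (star k)
  rw [P_erase (star k) univ ⟨0, by omega⟩ (mem_univ _), star_deg] at h1
  have h2 : P (star k) (univ.erase ⟨0, by omega⟩) = 0 := by
    unfold P
    apply sum_eq_zero
    intro u hu
    rw [card_eq_zero, filter_eq_empty_iff]
    intro w hw hadj
    have hu' : u.val ≠ 0 := fun h => (mem_erase.mp hu).1 (Fin.ext h)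
    have hw' : w.val ≠ 0 := fun h => (mem_erase.mp hw).1 (Fin.ext h)
    rcases hadj with ⟨h, _⟩ | ⟨h, _⟩
    · exact hu' h
    · exact hw' h
  omega

theorem star_alpha (k : ℕ) : alpha (star k) k = 2 * k + 1 := by
  apply le_antisymm
  · unfold alpha
    apply Finset.sup_le
    intro S hS
    have hS' := (mem_filter.mp hS).2
    have hne : S ≠ univ := by
      rintro rfl
      have := hS' ⟨0, by omega⟩ (mem_univ _)
      rw [star_deg] at this
      omega
    have h1 := card_lt_univ_of_notMem (s := S) (x := Classical.choose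
      (by by_contra hcon; push Not at hcon; exact hne (eq_univ_of_forall hcon) : ∃ x, x ∉ S))
      (Classical.choose_spec (by
        by_contra hcon; push Not at hcon; exact hne (eq_univ_of_forall hcon) : ∃ x, x ∉ S))
    rw [Fintype.card_fin] at h1
    omega
  · have h1 := alpha_ge (star k) k
    rw [star_edges] at h1
    push_cast at h1
    have hk : (0 : ℝ) < (k : ℝ) + 1 := by positivity
    have h2 : (2 * k + 2 - alpha (star k) k : ℝ) ≤ 1 := by
      by_contra hcon
      push Not at hcon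
      nlinarith
    have h3 : (2 * k + 1 : ℝ) ≤ alpha (star k) k := by linarith
    exact_mod_cast h3

/-- The cycle of length four. -/
def C4 : SimpleGraph (Fin 4) where
  Adj i j := (i.val + 1) % 4 = j.val ∨ (j.val + 1) % 4 = i.val
  symm := ⟨fun _ _ h => h.symm⟩
  loopless := ⟨fun i h => by omega⟩

instance : DecidableRel C4.Adj := fun i j =>
  inferInstanceAs (Decidable ((i.val + 1) % 4 = j.val ∨ (j.val + 1) % 4 = i.val))

theorem C4_edges : C4.edgeFinset.card = 4 := by
  have h1 := P_univ C4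
  have h2 : P C4 univ = 8 := by decide
  omega

theorem C4_alpha : alpha C4 1 = 2 := by decide

/-- The graph with one vertex. -/
def E1 : SimpleGraph (Fin 1) where
  Adj _ _ := False
  symm := ⟨fun _ _ h => h⟩
  loopless := ⟨fun _ h => h⟩

instance : DecidableRel E1.Adj := fun _ _ => inferInstanceAs (Decidable False)

theorem E1_edges : E1.edgeFinset.card = 0 := by
  have h1 := P_univ E1
  have h2 : P E1 univ = 0 := by decide
  omega

theorem E1_alpha (k : ℕ) : alpha E1 k = 1 := by
  have h1 := alpha_ge E1 k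
  have h2 := alpha_le E1 k
  rw [E1_edges] at h1
  simp only [Nat.cast_zero, Nat.cast_one] at h1
  have hk : (0 : ℝ) < (k : ℝ) + 1 := by positivity
  have h4 : (1 : ℝ) ≤ alpha E1 k := by
    by_contra hcon
    push Not at hcon
    nlinarith
  have h5 : 1 ≤ alpha E1 k := by exact_mod_cast h4
  omega

/-- The infimum `f(k,d)` is attained for `d = 0` and `d = 1` and every `k`, with
`f(k,0) = 1` and `f(k,1) = 1 - 1/(2(k+1))`; it is attained for `(k,d) = (1,2)`, with
`f(1,2) = 1/2`. Moreover every graph satisfies `α_k/n ≥ 1 - d/(2(k+1))`, where `d` is any upper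
bound for its average degree. -/
theorem result :
    (∀ k : ℕ, f k 0 = 1 ∧ f k 0 ∈ ratios k 0) ∧
    (∀ k : ℕ, f k 1 = 1 - 1 / (2 * (k + 1)) ∧ f k 1 ∈ ratios k 1) ∧
    (f 1 2 = 1 / 2 ∧ f 1 2 ∈ ratios 1 2) ∧
    (∀ (k : ℕ) (d : ℝ), ∀ x ∈ ratios k d, 1 - d / (2 * (k + 1)) ≤ x) := by
  refine ⟨fun k => ?_, fun k => ?_, ?_, lower⟩
  · have h : (1 : ℝ) - 0 / (2 * (k + 1)) ∈ ratios k 0 := by
      refine ⟨1, E1, inferInstance, one_pos, ?_, ?_⟩
      · rw [E1_edges]; simp
      · rw [E1_alpha]; simp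
    have := f_eq k 0 h
    simpa using this
  · have h : (1 : ℝ) - 1 / (2 * (k + 1)) ∈ ratios k 1 := by
      refine ⟨2 * k + 2, star k, inferInstance, by omega, ?_, ?_⟩
      · rw [star_edges]
        push_cast
        rw [div_le_iff₀ (by positivity)]
        linarith
      · rw [star_alpha]
        push_cast
        have hk : ((k : ℝ) + 1) ≠ 0 := by positivity
        field_simp
        ring
    exact f_eq k 1 h
  · have h : (1 : ℝ) - 2 / (2 * ((1 : ℕ) + 1)) ∈ ratios 1 2 := by
      refine ⟨4, C4, inferInstance, by omega, ?_, ?_⟩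
      · rw [C4_edges]; norm_num
      · rw [C4_alpha]; norm_num
    have := f_eq 1 2 h
    norm_num at this ⊢
    exact this

end Pool.Agent.Results.MP_39eed7_co.AverageDegreeOne
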